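import Pool.Agent.RS.StmtsF

/-!
# Row PIC of squad RS (MP_b2b50d_lc)
-/

set_option autoImplicit false

namespace Pool.Agent.RS.H62

open MvPolynomial

theorem pic (nmt : NmtStmt) : PicStmt := by
  intro E _ ι _ _ a b q hb hq hnp
  by_contra h
  apply hnp
  refine ⟨numer a b, ∏ t, b t, ?_, ((nmt ι).2.2 E a b hb).1⟩
  intro hdvd
  obtain ⟨t, _, ht⟩ := (hq.dvd_finset_prod_iff b).1 hdvd
  exact h ⟨t, ht⟩

end Pool.Agent.RS.H62
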